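import Pool.Agent.Lib.MP_e95c01_co.W.Final87

/-!
# `3 n_6 ≥ n` when every edge is covered by a vertex of degree 6 or a twin pair

`KConn`, `Critical` and `numDeg` are defined in `Pool.Agent.Lib.MP_e95c01_co.Basic`, `TwinPair` and
`Covered` in `Pool.Agent.Lib.MP_e95c01_co.W.StmtsT`.
-/

namespace Pool.Agent.Results.MP_e95c01_co.CoveredEdges

open Pool.Agent.Lib.MP_e95c01_co Pool.Agent.Lib.MP_e95c01_co.W

/-- A 6-connected graph with `n ≥ 12` vertices in which every edge is covered is
6-contraction-critical and has at least `n / 3` vertices of degree 6; equality holds for a graph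
with `3m` vertices, for every `m ≥ 4`. -/
theorem result :
    (∀ (V : Type) [Finite V] (G : SimpleGraph V), KConn 6 G → 12 ≤ Nat.card V →
      (∀ x y, G.Adj x y → Covered G x y) →
      Critical 6 G ∧ Nat.card V ≤ 3 * numDeg 6 G) ∧
    (∀ m : ℕ, 4 ≤ m → ∃ (V : Type) (_ : Finite V) (G : SimpleGraph V),
      Nat.card V = 3 * m ∧ KConn 6 G ∧ (∀ x y, G.Adj x y → Covered G x y) ∧
        numDeg 6 G = m) := by
  refine ⟨fun V _ G hG hn hc => ⟨critical_of V G hG hn hc, bound V G hG hn hc⟩, ?_⟩
  intro m hm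
  have hn : NeZero (3 * m) := ⟨by omega⟩
  exact ⟨ZMod (3 * m), inferInstance, G6 m, Nat.card_zmod _, kconn6 (by omega),
    covered6 (by omega), numDeg6 (by omega)⟩

end Pool.Agent.Results.MP_e95c01_co.CoveredEdges
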