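import Pool.Agent.Lib.MP_e95c01_co.T.Fin76
import Pool.Agent.Lib.MP_e95c01_co.T.Text76

/-!
# Vertices of degree 6 and pairs of twins of degree 7: `n ≤ 3 (n_6 + m)`

`KConn`, `contract`, `Critical` and `numDeg` are defined in `Pool.Agent.Lib.MP_e95c01_co.Basic`,
`LowCov` and `nbd` in `Pool.Agent.Lib.MP_e95c01_co.F.StmtsT`, `Twin7` and `PairCover` in
`Pool.Agent.Lib.MP_e95c01_co.T.Text76`.
-/

namespace Pool.Agent.Results.MP_e95c01_co.LowAndTwins

open Pool.Agent.Lib.MP_e95c01_co Pool.Agent.Lib.MP_e95c01_co.F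

/-- Let `G` be 6-contraction-critical and let `M` be a set of pairs of adjacent twins of degree 7 such
that every edge between the common neighbours of another such pair has a common neighbour of degree 6
or joins two common neighbours of a pair in `M`. Then `n ≤ 3 (n_6 + |M|)`. For `M` empty equality
holds for a graph with nine vertices. -/
theorem result :
    (∀ (V : Type) [Finite V] (G M : SimpleGraph V), Critical 6 G → PairCover G M →
      Nat.card V ≤ 3 * (numDeg 6 G + Nat.card M.edgeSet)) ∧
    (∃ (V : Type) (_ : Finite V) (G : SimpleGraph V),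
      Nat.card V = 9 ∧ Critical 6 G ∧ PairCover G ⊥ ∧ numDeg 6 G = 3) := by
  refine ⟨fun V _ G M hG hM => N.Text76.transfer (fun _ _ _ C q => C.stFn3_all76 q) G M hG hM, ?_⟩
  have hn : NeZero (3 * 3) := ⟨by norm_num⟩
  exact ⟨ZMod (3 * 3), inferInstance, G6 3, by rw [Nat.card_zmod], critical6 le_rfl,
    N.Text76.of_pairsCov pairsCov_ex, numDeg6 le_rfl⟩

end Pool.Agent.Results.MP_e95c01_co.LowAndTwins
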