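import Pool.Agent.Lib.MP_e95c01_co.F.Final_87

/-!
# `3 n_6 ≥ n` when pairs of vertices cover nothing new

`KConn`, `contract`, `Critical` and `numDeg` are defined in `Pool.Agent.Lib.MP_e95c01_co.Basic`,
`LowCov`, `nbd` and `PairsCov` in `Pool.Agent.Lib.MP_e95c01_co.F.StmtsT`.
-/

namespace Pool.Agent.Results.MP_e95c01_co.PairsCovered

open Pool.Agent.Lib.MP_e95c01_co Pool.Agent.Lib.MP_e95c01_co.F

/-- A 6-contraction-critical graph in which every edge between the six outside neighbours of a
two-vertex fragment has a common neighbour of degree 6 has at least `n / 3` vertices of degree 6;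
equality holds for a graph with nine vertices. -/
theorem result :
    (∀ (V : Type) [Finite V] (G : SimpleGraph V), Critical 6 G → PairsCov G →
      Nat.card V ≤ 3 * numDeg 6 G) ∧
    (∃ (V : Type) (_ : Finite V) (G : SimpleGraph V),
      Nat.card V = 9 ∧ Critical 6 G ∧ PairsCov G ∧ numDeg 6 G = 3) := by
  refine ⟨fun V _ G hG hp => bound V G hG hp, ?_⟩
  have hn : NeZero (3 * 3) := ⟨by norm_num⟩
  exact ⟨ZMod (3 * 3), inferInstance, G6 3, by rw [Nat.card_zmod], critical6 le_rfl, pairsCov_ex,
    numDeg6 le_rfl⟩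

end Pool.Agent.Results.MP_e95c01_co.PairsCovered
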