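import Pool.Agent.Lib.MP_e95c01_co.Six
import Pool.Agent.Lib.MP_e95c01_co.U.Fin37

/-!
# `n_6 ≥ n / 4` for all 6-contraction-critical graphs

`KConn`, `contract`, `Critical`, `numDeg`, `Admissible` and `cc` are defined in
`Pool.Agent.Lib.MP_e95c01_co.Basic`.
-/

namespace Pool.Agent.Results.MP_e95c01_co.QuarterLow

open Pool.Agent.Lib.MP_e95c01_co

/-- Every finite 6-contraction-critical graph with `n` vertices has at least `n / 4` vertices of
degree 6; that is, `c_6 ≥ 1/4`. -/
theorem result :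
    (∀ (V : Type) [Finite V] (G : SimpleGraph V), Critical 6 G →
      Nat.card V ≤ 4 * numDeg 6 G) ∧
    1 / 4 ≤ cc 6 := by
  have h1 : ∀ (V : Type) [Finite V] (G : SimpleGraph V), Critical 6 G →
      Nat.card V ≤ 4 * numDeg 6 G := fun V _ G hG =>
    N.Transfer37.transfer4 (fun V _ _ C => C.stC4) G hG
  refine ⟨h1, N.Transfer37.quarter h1 ?_⟩
  rintro c ⟨-, hc⟩
  have hn : NeZero (3 * 3) := ⟨by omega⟩
  have h3 := hc (ZMod (3 * 3)) (G6 3) (critical6 (le_refl _))
  rw [Nat.card_zmod, numDeg6 (le_refl _)] at h3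
  push_cast at h3
  linarith

end Pool.Agent.Results.MP_e95c01_co.QuarterLow
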